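import Mathlib
import Pool.Agent.Lib.MP_551055_al.Trim.LS.Pos
import Pool.Agent.Lib.MP_551055_al.Trim.LS.Stmts
import Pool.Agent.Lib.MP_551055_al.Trim.Red.Orb

/-!
# Products of trees: definitions and statements of the modules
-/

set_option autoImplicit false

namespace Pool.Agent.Lib.MP_551055_al
end Pool.Agent.Lib.MP_551055_al

namespace Pool.Agent.Lib.MP_551055_al.LS
end Pool.Agent.Lib.MP_551055_al.LS

namespace Pool.Agent.Lib.MP_551055_al.Red
end Pool.Agent.Lib.MP_551055_al.Red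

namespace Pool.Agent.Lib.MP_551055_al.PT

open Pool.Agent.Lib.MP_551055_al

open Pool.Agent.Lib.MP_551055_al.LS

open Pool.Agent.Lib.MP_551055_al.Red (Vec)

universe u v w

/-! ## Trees -/

/-- Edge convex sets of vertices: if `A` meets both sides of an edge, it contains the edge. -/
def EC {V : Type v} (T : SimpleGraph V) (A : Set V) : Prop :=
  ∀ u v, T.Adj u v → (∃ x ∈ A, x ∈ side T u v) → (∃ x ∈ A, x ∉ side T u v) → u ∈ A ∧ v ∈ A

/-- Module Hull. -/
def StHull : Prop :=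
  ∀ (V : Type v) (T : SimpleGraph V), T.IsTree → ∀ B : Set V, B.Finite →
    ∃ A : Set V, A.Finite ∧ B ⊆ A ∧ EC T A

/-- The positively oriented edges within `A`. -/
def SE {V : Type v} (T : SimpleGraph V) (O : Set (V × V)) (A : Set V) : Set (V × V) :=
  {e | e ∈ O ∧ T.Adj e.1 e.2 ∧ e.1 ∈ A ∧ e.2 ∈ A}

/-- `O` is an invariant orientation. -/
structure Ori (Γ : Type u) [Group Γ] {V : Type v} [MulAction Γ V] (T : SimpleGraph V)
    (O : Set (V × V)) : Prop where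
  inv : ∀ (γ : Γ), ∀ a ∈ O, γ • a ∈ O
  ori : ∀ u v, T.Adj u v → ((u, v) ∈ O ↔ (v, u) ∉ O)

/-! ## Families of additive subgroups -/

section

variable {Γ : Type u} [Group Γ] {C : Type v} [MulAction Γ C] {ι : Type} {n : ℕ}

/-- The sum over the second index. -/
noncomputable def eps (Γ : Type u) [Group Γ] (ι : Type) (n : ℕ) :
    F Γ (ι × Fin n) →ₗ[ZG Γ] F Γ ι where
  toFun y := fun j => ∑ k : Fin n, y (j, k)
  map_add' y z := by
    funext j
    rw [Pi.add_apply, ← Finset.sum_add_distrib]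
    rfl
  map_smul' s y := by
    funext j
    rw [RingHom.id_apply, Pi.smul_apply, Finset.smul_sum]
    rfl

theorem eps_apply (y : F Γ (ι × Fin n)) (j : ι) : eps Γ ι n y j = ∑ k : Fin n, y (j, k) := rfl

/-- The positions of the basis vectors in `C`. -/
def cp (ι : Type) (c : Fin n → C) : ι × Fin n → C := fun a => c a.2

/-- A family of additive subgroups which is compatible with the action of `Γ`. -/
def Eqv (P : C → AddSubgroup (F Γ ι)) : Prop :=
  ∀ (γ : Γ) (x : C), ∀ f ∈ P x, (MonoidAlgebra.single γ (1 : ℤ) : ZG Γ) • f ∈ P (γ • x)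

/-- All group elements `γ` which occur in elements of `P x` satisfy `γ⁻¹ x ∈ range c`. -/
def Cov (c : Fin n → C) (P : C → AddSubgroup (F Γ ι)) : Prop :=
  ∀ (x : C), ∀ f ∈ P x, ∀ (j : ι) (γ : Γ), (f j).coeff γ ≠ 0 → γ⁻¹ • x ∈ Set.range c

theorem single_smul_int (γ : Γ) (a : ℤ) (f : F Γ ι) :
    (MonoidAlgebra.single γ a : ZG Γ) • f = a • ((MonoidAlgebra.single γ (1 : ℤ) : ZG Γ) • f) := by
  refine F_ext fun i g => ?_
  change _ = (a • (((MonoidAlgebra.single γ (1 : ℤ) : ZG Γ) • f) i)).coeff g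
  rw [MonoidAlgebra.coeff_smul, Finsupp.smul_apply, single_smul_coeff, single_smul_coeff, one_mul,
    smul_eq_mul]

/-- The sections of the family `P`: the vectors whose part at the position `x` is in `P x`. -/
noncomputable def sec (c : Fin n → C) (P : C → AddSubgroup (F Γ ι)) (hP : Eqv P) :
    Submodule (ZG Γ) (F Γ (ι × Fin n)) where
  carrier := {y | ∀ x, eps Γ ι n (pr (cp ι c) {x} y) ∈ P x}
  add_mem' h h' x := by rw [map_add, map_add]; exact (P x).add_mem (h x) (h' x)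
  zero_mem' x := by rw [map_zero, map_zero]; exact (P x).zero_mem
  smul_mem' s y h := by
    refine smul_induction (Q := fun y => ∀ x, eps Γ ι n (pr (cp ι c) {x} y) ∈ P x) (fun x => ?_)
      (fun a b h h' x => ?_) (fun γ a x => ?_) s
    · rw [map_zero, map_zero]
      exact (P x).zero_mem
    · rw [map_add, map_add]
      exact (P x).add_mem (h x) (h' x)
    · have hx : x = γ • (γ⁻¹ • x) := by rw [smul_smul, mul_inv_cancel, one_smul]
      rw [hx, pr_smul_singleton, map_smul, single_smul_int]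
      exact (P _).zsmul_mem (hP γ _ _ (h _)) a

theorem single_one_smul_smul (γ δ : Γ) (f : F Γ ι) :
    (MonoidAlgebra.single γ (1 : ℤ) : ZG Γ) • ((MonoidAlgebra.single δ (1 : ℤ) : ZG Γ) • f) =
      (MonoidAlgebra.single (γ * δ) (1 : ℤ) : ZG Γ) • f := by
  rw [smul_smul, MonoidAlgebra.single_mul_single, one_mul]

/-- The elements of `K` all of whose group elements `γ` satisfy `γ⁻¹ x ∈ S`. -/
def sat (K : Submodule (ZG Γ) (F Γ ι)) (S : Set C) (x : C) : AddSubgroup (F Γ ι) where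
  carrier := {f | f ∈ K ∧ ∀ (j : ι) (γ : Γ), (f j).coeff γ ≠ 0 → γ⁻¹ • x ∈ S}
  zero_mem' := ⟨K.zero_mem, fun _ _ h => absurd rfl h⟩
  add_mem' {a b} ha hb := by
    refine ⟨K.add_mem ha.1 hb.1, fun j γ h => ?_⟩
    by_cases h1 : (a j).coeff γ = 0
    · refine hb.2 j γ fun h2 => h ?_
      rw [Pi.add_apply, MonoidAlgebra.coeff_add, Finsupp.add_apply, h1, h2, add_zero]
    · exact ha.2 j γ h1
  neg_mem' {a} ha := by
    refine ⟨K.neg_mem ha.1, fun j γ h => ha.2 j γ fun h2 => h ?_⟩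
    rw [Pi.neg_apply, MonoidAlgebra.coeff_neg, Finsupp.neg_apply, h2, neg_zero]

theorem mem_sat {K : Submodule (ZG Γ) (F Γ ι)} {S : Set C} {x : C} {f : F Γ ι} :
    f ∈ sat K S x ↔ f ∈ K ∧ ∀ (j : ι) (γ : Γ), (f j).coeff γ ≠ 0 → γ⁻¹ • x ∈ S := Iff.rfl

theorem sat_eqv (K : Submodule (ZG Γ) (F Γ ι)) (S : Set C) : Eqv (sat K S) := by
  rintro γ x f ⟨h1, h2⟩
  refine ⟨K.smul_mem _ h1, fun j g hg => ?_⟩
  rw [single_smul_coeff, one_mul] at hg
  have h3 := h2 j _ hg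
  rwa [mul_inv_rev, inv_inv, mul_smul] at h3

end

/-! ## The Mayer-Vietoris sequence -/

/-- The conditions for the Mayer-Vietoris sequence. -/
structure MV {Γ : Type u} [Group Γ] {V : Type v} [MulAction Γ V] {ι : Type} (T : SimpleGraph V)
    (O : Set (V × V)) (Pv : V → AddSubgroup (F Γ ι)) (Pe : V × V → AddSubgroup (F Γ ι)) {n m : ℕ}
    (c : Fin n → V) (b : Fin m → V × V) : Prop where
  eqv : Eqv Pv
  eqe : Eqv Pe
  covv : Cov c Pv
  cove : Cov b Pe
  injc : Function.Injective c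
  injb : Function.Injective b
  bO : ∀ k, b k ∈ O ∧ T.Adj (b k).1 (b k).2
  sub : ∀ e ∈ O, T.Adj e.1 e.2 → Pe e ≤ Pv e.1 ⊓ Pv e.2
  cut : ∀ e ∈ O, T.Adj e.1 e.2 → ∀ f : F Γ ι,
    (f ∈ Pv e.1 → f ∈ (⨆ w ∈ side T e.1 e.2, Pv w) → f ∈ Pe e) ∧
    (f ∈ Pv e.2 → f ∈ (⨆ w ∈ side T e.2 e.1, Pv w) → f ∈ Pe e)

/-- Module MV. -/
def StMV : Prop :=
  ∀ (Γ : Type u) [Group Γ] (V : Type v) [MulAction Γ V] (T : SimpleGraph V), TreeAct Γ V T →
    ∀ (O : Set (V × V)), Ori Γ T O →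
    ∀ (ι : Type) [Finite ι] (Pv : V → AddSubgroup (F Γ ι)) (Pe : V × V → AddSubgroup (F Γ ι))
      (n m : ℕ) (c : Fin n → V) (b : Fin m → V × V) (h : MV T O Pv Pe c b),
      ∃ d : sec b Pe h.eqe →ₗ[ZG Γ] sec c Pv h.eqv,
        Function.Injective d ∧
        LinearMap.range d = LinearMap.ker (eps Γ ι n ∘ₗ (sec c Pv h.eqv).subtype) ∧
        (∀ f : F Γ ι, f ∈ (⨆ v, Pv v) →
          f ∈ LinearMap.range (eps Γ ι n ∘ₗ (sec c Pv h.eqv).subtype)) ∧
        ∀ (e : V × V) (z : sec b Pe h.eqe), In (cp ι b) {e} (z : F Γ (ι × Fin m)) →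
          ∃ y₁ y₂ : F Γ (ι × Fin n), In (cp ι c) {e.1} y₁ ∧ In (cp ι c) {e.2} y₂ ∧
            eps Γ ι n y₁ = eps Γ ι m z ∧ eps Γ ι n y₂ = eps Γ ι m z ∧
            ((d z : sec c Pv h.eqv) : F Γ (ι × Fin n)) = y₂ - y₁

/-- Module SatMV. -/
def StSatMV : Prop :=
  ∀ (Γ : Type u) [Group Γ] (V : Type v) [MulAction Γ V] (T : SimpleGraph V), TreeAct Γ V T →
    ∀ (O : Set (V × V)), Ori Γ T O →
    ∀ (ι : Type) [Finite ι] (K : Submodule (ZG Γ) (F Γ ι)), K.FG →
      ∃ (A : Set V) (n m : ℕ) (c : Fin n → V) (b : Fin m → V × V), A.Finite ∧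
        MV T O (sat K A) (sat K (SE T O A)) c b ∧ ∀ f ∈ K, f ∈ ⨆ v, sat K A v

/-! ## Graded generators, filtrations -/

/-! ## The main statements -/

end Pool.Agent.Lib.MP_551055_al.PT
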