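import Mathlib
import Pool.Agent.Lib.MP_551055_al.Trim.LS.Pos
import Pool.Agent.Lib.MP_551055_al.Trim.LS.Stmts
import Pool.Agent.Lib.MP_551055_al.Trim.PT.Stmts
import Pool.Agent.Lib.MP_551055_al.Trim.Red.Orb
import Pool.Agent.Lib.MP_551055_al.Trim.Red.Res

/-!
# Products of trees: basic facts on sections
-/

set_option autoImplicit false

namespace Pool.Agent.Lib.MP_551055_al
end Pool.Agent.Lib.MP_551055_al

namespace Pool.Agent.Lib.MP_551055_al.LS
end Pool.Agent.Lib.MP_551055_al.LS

namespace Pool.Agent.Lib.MP_551055_al.Red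
end Pool.Agent.Lib.MP_551055_al.Red

namespace Pool.Agent.Lib.MP_551055_al.PT

open Pool.Agent.Lib.MP_551055_al

open Pool.Agent.Lib.MP_551055_al.LS

open Pool.Agent.Lib.MP_551055_al.Red (res res_coeff res_single_mul Vec)

universe u v w

variable {Γ : Type u} [Group Γ] {C : Type v} [MulAction Γ C] {ι : Type} {n : ℕ}

/-- The vector at the position `x` with sum `f`. -/
noncomputable def unf (c : Fin n → C) (x : C) : F Γ ι →+ F Γ (ι × Fin n) where
  toFun f := fun a => res {γ : Γ | γ • c a.2 = x} (f a.1)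
  map_zero' := by
    funext a
    exact map_zero _
  map_add' f f' := by
    funext a
    exact map_add _ _ _

open Classical in
theorem unf_coeff (c : Fin n → C) (x : C) (f : F Γ ι) (j : ι) (k : Fin n) (γ : Γ) :
    (unf c x f (j, k)).coeff γ = if γ • c k = x then (f j).coeff γ else 0 := by
  change (res {γ : Γ | γ • c k = x} (f j)).coeff γ = _
  rw [res_coeff]
  rfl

theorem unf_in (c : Fin n → C) (x : C) (f : F Γ ι) : In (cp ι c) {x} (unf c x f) := by
  classical
  refine in_iff.2 fun a γ h => ?_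
  obtain ⟨j, k⟩ := a
  rw [unf_coeff] at h
  by_contra h1
  have h2 : ¬ γ • c k = x := h1
  apply h
  rw [if_neg h2]

/-- The coefficients of a vector with one position. -/
theorem coeff_eq_zero_of_in {c : Fin n → C} {x : C} {y : F Γ (ι × Fin n)}
    (hy : In (cp ι c) {x} y) {j : ι} {k : Fin n} {γ : Γ} (h : γ • c k ≠ x) :
    (y (j, k)).coeff γ = 0 := by
  by_contra hne
  exact h (in_iff.1 hy (j, k) γ hne)

theorem coeff_sum' {α : Type} (s : Finset α) (f : α → ZG Γ) (γ : Γ) :
    (∑ k ∈ s, f k).coeff γ = ∑ k ∈ s, (f k).coeff γ := by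
  classical
  induction s using Finset.induction_on with
  | empty => rfl
  | insert a s ha ih =>
    rw [Finset.sum_insert ha, Finset.sum_insert ha, MonoidAlgebra.coeff_add, Finsupp.add_apply, ih]

theorem eps_coeff (y : F Γ (ι × Fin n)) (j : ι) (γ : Γ) :
    (eps Γ ι n y j).coeff γ = ∑ k : Fin n, (y (j, k)).coeff γ := by
  rw [eps_apply, coeff_sum']

/-- The coefficients of the sum of a vector with one position. -/
theorem eps_coeff_of_in {c : Fin n → C} (hc : Function.Injective c) {x : C}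
    {y : F Γ (ι × Fin n)} (hy : In (cp ι c) {x} y) (j : ι) (k : Fin n) (γ : Γ)
    (h : γ • c k = x) : (eps Γ ι n y j).coeff γ = (y (j, k)).coeff γ := by
  rw [eps_coeff]
  refine Finset.sum_eq_single k (fun k' _ hk' => ?_) fun h' => absurd (Finset.mem_univ k) h'
  refine coeff_eq_zero_of_in hy fun h' => hk' (hc ?_)
  exact smul_left_cancel γ (h'.trans h.symm)

theorem eps_coeff_ne {c : Fin n → C} {x : C} {y : F Γ (ι × Fin n)} (hy : In (cp ι c) {x} y)
    {j : ι} {γ : Γ} (h : (eps Γ ι n y j).coeff γ ≠ 0) : γ⁻¹ • x ∈ Set.range c := by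
  by_contra h1
  apply h
  rw [eps_coeff]
  refine Finset.sum_eq_zero fun k _ => coeff_eq_zero_of_in hy fun h2 => h1 ⟨k, ?_⟩
  rw [← h2, inv_smul_smul]

/-- A vector with one position is determined by its sum. -/
theorem unf_eps {c : Fin n → C} (hc : Function.Injective c) {x : C} {y : F Γ (ι × Fin n)}
    (hy : In (cp ι c) {x} y) : unf c x (eps Γ ι n y) = y := by
  classical
  refine F_ext fun a γ => ?_
  obtain ⟨j, k⟩ := a
  rw [unf_coeff]
  split_ifs with h
  · exact eps_coeff_of_in hc hy j k γ h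
  · exact (coeff_eq_zero_of_in hy h).symm

theorem eq_of_eps {c : Fin n → C} (hc : Function.Injective c) {x : C} {y z : F Γ (ι × Fin n)}
    (hy : In (cp ι c) {x} y) (hz : In (cp ι c) {x} z) (h : eps Γ ι n y = eps Γ ι n z) : y = z := by
  rw [← unf_eps hc hy, h, unf_eps hc hz]

theorem eps_unf {c : Fin n → C} (hc : Function.Injective c) {x : C} {f : F Γ ι}
    (h : ∀ (j : ι) (γ : Γ), (f j).coeff γ ≠ 0 → γ⁻¹ • x ∈ Set.range c) :
    eps Γ ι n (unf c x f) = f := by
  classical
  refine F_ext fun j γ => ?_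
  by_cases h1 : (f j).coeff γ = 0
  · rw [h1, eps_coeff]
    refine Finset.sum_eq_zero fun k _ => ?_
    rw [unf_coeff, h1]
    split_ifs <;> rfl
  · obtain ⟨k, hk⟩ := h j γ h1
    have h2 : γ • c k = x := by rw [hk, smul_inv_smul]
    rw [eps_coeff_of_in hc (unf_in c x f) j k γ h2, unf_coeff, if_pos h2]

theorem unf_smul (c : Fin n → C) (x : C) (γ : Γ) (a : ℤ) (f : F Γ ι) :
    unf c (γ • x) ((MonoidAlgebra.single γ a : ZG Γ) • f) =
      (MonoidAlgebra.single γ a : ZG Γ) • unf c x f := by
  classical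
  refine F_ext fun b g => ?_
  obtain ⟨j, k⟩ := b
  rw [unf_coeff, single_smul_coeff, single_smul_coeff, unf_coeff]
  by_cases h : g • c k = γ • x
  · rw [if_pos h, if_pos (by rw [mul_smul, h, inv_smul_smul])]
  · rw [if_neg h, if_neg, mul_zero]
    intro h1
    apply h
    rw [mul_smul] at h1
    rw [← h1, smul_inv_smul]

/-- The part at `x` of a section. -/
theorem unf_mem_sec {c : Fin n → C} (hc : Function.Injective c) {P : C → AddSubgroup (F Γ ι)}
    {hP : Eqv P} (hcov : Cov c P) {x : C} {f : F Γ ι} (hf : f ∈ P x) :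
    unf c x f ∈ sec c P hP := by
  intro x'
  by_cases h : x' = x
  · rw [h, (unf_in c x f).eq, eps_unf hc (hcov x f hf)]
    exact hf
  · rw [(unf_in c x f).pr_eq_zero (Set.disjoint_singleton.2 h), map_zero]
    exact (P x').zero_mem

/-- A vector with position `x` is a section if and only if its sum is in `P x`. -/
theorem mem_sec_of_in {c : Fin n → C} {P : C → AddSubgroup (F Γ ι)} {hP : Eqv P} {x : C}
    {y : F Γ (ι × Fin n)} (hy : In (cp ι c) {x} y) : y ∈ sec c P hP ↔ eps Γ ι n y ∈ P x := by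
  constructor
  · intro h
    have h1 := h x
    rwa [hy.eq] at h1
  · intro h x'
    by_cases hx : x' = x
    · rw [hx, hy.eq]
      exact h
    · rw [hy.pr_eq_zero (Set.disjoint_singleton.2 hx), map_zero]
      exact (P x').zero_mem

/-- The sections form a graded submodule. -/
theorem pr_mem_sec {c : Fin n → C} {P : C → AddSubgroup (F Γ ι)} {hP : Eqv P} (Q : Set C)
    {y : F Γ (ι × Fin n)} (hy : y ∈ sec c P hP) : pr (cp ι c) Q y ∈ sec c P hP := by
  intro x
  rw [pr_pr]
  by_cases hx : x ∈ Q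
  · rw [Set.inter_eq_left.2 (Set.singleton_subset_iff.2 hx)]
    exact hy x
  · rw [Set.singleton_inter_eq_empty.2 hx, pr_empty, map_zero]
    exact (P x).zero_mem

section Two

end Two

end Pool.Agent.Lib.MP_551055_al.PT
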