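import Mathlib
import Pool.Agent.Lib.MP_551055_al.Trim.LS.FFR
import Pool.Agent.Lib.MP_551055_al.Trim.LS.PStmts
import Pool.Agent.Lib.MP_551055_al.Trim.LS.Pos
import Pool.Agent.Lib.MP_551055_al.Trim.LS.Stmts
import Pool.Agent.Lib.MP_551055_al.Trim.PT.Base
import Pool.Agent.Lib.MP_551055_al.Trim.PT.Stmts
import Pool.Agent.Lib.MP_551055_al.Trim.Red.Orb

/-!
# Products of trees: groups acting on trees with regular noetherian stabilisers
-/

set_option autoImplicit false

namespace Pool.Agent.Lib.MP_551055_al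
end Pool.Agent.Lib.MP_551055_al

namespace Pool.Agent.Lib.MP_551055_al.LS
end Pool.Agent.Lib.MP_551055_al.LS

namespace Pool.Agent.Lib.MP_551055_al.Red
end Pool.Agent.Lib.MP_551055_al.Red

namespace Pool.Agent.Lib.MP_551055_al.PT

open Pool.Agent.Lib.MP_551055_al

open Pool.Agent.Lib.MP_551055_al.LS

open Pool.Agent.Lib.MP_551055_al.Red (Vec)

universe u v

/-- The sections have a finite resolution. -/
theorem exists_ffr_sec (hInd : StInd.{u, v}) (hFree : StHomFree.{u, v}) {Γ : Type u} [Group Γ]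
    {C : Type v} [MulAction Γ C] {ι : Type} [Finite ι] {n : ℕ} (c : Fin n → C)
    (hc : ∀ k, RegNoeth (MonoidAlgebra ℤ (MulAction.stabilizer Γ (c k))))
    (P : C → AddSubgroup (F Γ ι)) (hP : Eqv P) : ∃ d, FFR (ZG Γ) d (sec c P hP) := by
  classical
  have hloc : ∀ a : ι × Fin n, ∃ d, FFR (MonoidAlgebra ℤ (MulAction.stabilizer Γ (cp ι c a))) d
      (homIn (sec c P hP) (cp ι c) (cp ι c a) ⧸
        (homIn (⊥ : Submodule (ZG Γ) (F Γ (ι × Fin n))) (cp ι c) (cp ι c a)).submoduleOf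
          (homIn (sec c P hP) (cp ι c) (cp ι c a))) := by
    intro a
    have hca : RegNoeth (MonoidAlgebra ℤ (MulAction.stabilizer Γ (cp ι c a))) := hc a.2
    obtain ⟨hN, hres⟩ := hca
    apply hres
    obtain ⟨k, ⟨e⟩⟩ := hFree Γ C (ι × Fin n) (cp ι c) (cp ι c a)
    have h1 : Module.Finite (MonoidAlgebra ℤ (MulAction.stabilizer Γ (cp ι c a)))
        (homIn (⊤ : Submodule (ZG Γ) (F Γ (ι × Fin n))) (cp ι c) (cp ι c a)) :=
      Module.Finite.equiv e.symm
    have h2 : IsNoetherian (MonoidAlgebra ℤ (MulAction.stabilizer Γ (cp ι c a)))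
        (homIn (⊤ : Submodule (ZG Γ) (F Γ (ι × Fin n))) (cp ι c) (cp ι c a)) :=
      isNoetherian_of_isNoetherianRing_of_finite _ _
    have hle : homIn (sec c P hP) (cp ι c) (cp ι c a) ≤
        homIn (⊤ : Submodule (ZG Γ) (F Γ (ι × Fin n))) (cp ι c) (cp ι c a) :=
      fun y hy => ⟨hy.1, trivial⟩
    have h3 : Module.Finite (MonoidAlgebra ℤ (MulAction.stabilizer Γ (cp ι c a)))
        (homIn (sec c P hP) (cp ι c) (cp ι c a)) :=
      Module.Finite.of_injective (Submodule.inclusion hle) (Submodule.inclusion_injective hle)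
    exact Module.Finite.of_surjective _ (Submodule.mkQ_surjective _)
  choose D hD using hloc
  have := Fintype.ofFinite (ι × Fin n)
  have h := hInd Γ C (Finset.univ.sup D) (ι × Fin n) (cp ι c) ⊥ (sec c P hP) bot_le
    (fun Q y hy => by
      rw [(Submodule.mem_bot (ZG Γ)).1 hy, map_zero]
      exact Submodule.zero_mem _)
    (fun Q y hy => pr_mem_sec Q hy)
    (fun a => (hD a).mono (Finset.le_sup (f := D) (Finset.mem_univ a)))
  refine ⟨_, h.congr (Submodule.quotEquivOfEqBot _ ?_)⟩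
  rw [eq_bot_iff]
  intro y hy
  exact (Submodule.mem_bot (ZG Γ)).2 (Subtype.ext ((Submodule.mem_bot (ZG Γ)).1 hy))

end Pool.Agent.Lib.MP_551055_al.PT
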