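import Mathlib
import Pool.Agent.Lib.MP_551055_al.Trim.LS.Final
import Pool.Agent.Lib.MP_551055_al.Trim.LS.PFin
import Pool.Agent.Lib.MP_551055_al.Trim.LS.PStmts
import Pool.Agent.Lib.MP_551055_al.Trim.LS.Stmts
import Pool.Agent.Lib.MP_551055_al.Trim.PT.TreeCoh2

/-!
# Products of trees: the closure theorems
-/

set_option autoImplicit false

namespace Pool.Agent.Lib.MP_551055_al
end Pool.Agent.Lib.MP_551055_al

namespace Pool.Agent.Lib.MP_551055_al.LS
end Pool.Agent.Lib.MP_551055_al.LS

namespace Pool.Agent.Lib.MP_551055_al.PT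

open Pool.Agent.Lib.MP_551055_al

open Pool.Agent.Lib.MP_551055_al.LS

/-- The groups obtained from poly-`ℤ` groups by actions on trees with poly-`ℤ` edge stabilisers. -/
inductive Tame : ∀ (G : Type) [Group G], Prop
  | poly (G : Type) [Group G] : PolyZ G → Tame G
  | tree (G : Type) [Group G] (V : Type) [MulAction G V] (T : SimpleGraph V) : TreeAct G V T →
      (∀ v : V, Tame (MulAction.stabilizer G v)) →
      (∀ u v : V, T.Adj u v → PolyZ (MulAction.stabilizer G (u, v))) → Tame G

/-- Tame groups are regular coherent. -/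
theorem Tame.regCoh (hCoh : StTreeCoh2.{0, 0}) (hP : StPFin) {D : Type} [Group D] (h : Tame D) :
    ∀ m : ℕ, RegCoh (MonoidAlgebra ℤ (D × ZN m)) := by
  induction h with
  | poly D hD =>
    intro m M _ _ hM
    exact (hP D hD m).2 M inferInstance
  | tree D V T hT hv he ih =>
    intro m
    let _ : MulAction (D × ZN m) V := MulAction.compHom V (MonoidHom.fst D (ZN m))
    have hA : TreeAct (D × ZN m) V T :=
      { tree := hT.tree
        adj := fun γ a b hab => hT.adj γ.1 a b hab
        inv := fun γ a b hab h => hT.inv γ.1 a b hab h }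
    refine hCoh (D × ZN m) V T hA (fun v => ?_) (fun u v huv => ?_)
    · exact RegCoh.congr (MonoidAlgebra.mapDomainRingEquiv ℤ
        { toFun := fun γ => ⟨(γ.1.1, γ.2), γ.1.2⟩
          invFun := fun γ => (⟨γ.1.1, γ.2⟩, γ.1.2)
          left_inv := fun _ => rfl
          right_inv := fun _ => rfl
          map_mul' := fun _ _ => rfl }) (ih v m)
    · exact regNoeth_mulEquiv
        { toFun := fun γ => ⟨(γ.1.1, γ.2), γ.1.2⟩
          invFun := fun γ => (⟨γ.1.1, γ.2⟩, γ.1.2)
          left_inv := fun _ => rfl
          right_inv := fun _ => rfl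
          map_mul' := fun _ _ => rfl } (hP (MulAction.stabilizer D (u, v)) (he u v huv) m)

/-- The action of a group on a tree through a homomorphism. -/
theorem tcomp {G H : Type} [Group G] [Group H] {V : Type} [MulAction G V] [MulAction H V]
    {T : SimpleGraph V} (h : TreeAct G V T) (f : H →* G) (hf : ∀ (γ : H) (v : V), γ • v = f γ • v) :
    TreeAct H V T :=
  { tree := h.tree
    adj := fun γ a b hab => by
      rw [hf, hf]
      exact h.adj (f γ) a b hab
    inv := fun γ a b hab h1 => by
      rw [hf] at h1 ⊢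
      exact h.inv (f γ) a b hab h1 }

end Pool.Agent.Lib.MP_551055_al.PT
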