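import Mathlib
import Pool.Agent.Lib.MP_551055_al.Trim.LS.Pos
import Pool.Agent.Lib.MP_551055_al.Trim.LS.Stmts
import Pool.Agent.Lib.MP_551055_al.Trim.LS.TreeA
import Pool.Agent.Lib.MP_551055_al.Trim.LS.TreeB
import Pool.Agent.Lib.MP_551055_al.Trim.PT.Base
import Pool.Agent.Lib.MP_551055_al.Trim.PT.Stmts

/-!
# Products of trees: the Mayer-Vietoris sequence
-/

set_option autoImplicit false

namespace Pool.Agent.Lib.MP_551055_al
end Pool.Agent.Lib.MP_551055_al

namespace Pool.Agent.Lib.MP_551055_al.LS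
end Pool.Agent.Lib.MP_551055_al.LS

namespace Pool.Agent.Lib.MP_551055_al.PT

open Pool.Agent.Lib.MP_551055_al

open Pool.Agent.Lib.MP_551055_al.LS

universe u v w

section Sum

variable {Γ : Type u} [Group Γ] {C : Type v} [MulAction Γ C] {ι : Type} {n : ℕ}

/-- The part of a section at a position. -/
noncomputable def prS {c : Fin n → C} {P : C → AddSubgroup (F Γ ι)} {hP : Eqv P} (x : C) :
    sec c P hP →+ sec c P hP where
  toFun y := ⟨pr (cp ι c) {x} (y : F Γ (ι × Fin n)), pr_mem_sec {x} y.2⟩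
  map_zero' := Subtype.ext (map_zero _)
  map_add' _ _ := Subtype.ext (map_add _ _ _)

/-- Every section is the sum of its parts. -/
theorem sec_sum [Finite ι] {c : Fin n → C} {P : C → AddSubgroup (F Γ ι)} {hP : Eqv P}
    (y : sec c P hP) (s : Finset C) (hs : In (cp ι c) (s : Set C) (y : F Γ (ι × Fin n))) :
    y = ∑ x ∈ s, prS x y := by
  apply Subtype.ext
  rw [AddSubmonoidClass.coe_finsetSum]
  have h := sum_pr (cp ι c) s (y : F Γ (ι × Fin n))
  rw [hs.eq] at h
  exact h.symm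

/-- Additive maps which agree on sections with one position are equal. -/
theorem sec_ext [Finite ι] {c : Fin n → C} {P : C → AddSubgroup (F Γ ι)} {hP : Eqv P}
    {M : Type w} [AddCommGroup M] (f g : sec c P hP →+ M)
    (h : ∀ (x : C) (y : sec c P hP), In (cp ι c) {x} (y : F Γ (ι × Fin n)) → f y = g y) :
    f = g := by
  ext1 y
  obtain ⟨s, hs⟩ := exists_finset (cp ι c) (y : F Γ (ι × Fin n))
  rw [sec_sum y s hs, map_sum, map_sum]
  exact Finset.sum_congr rfl fun x _ => h x _ (in_pr _ _ _)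

end Sum

section Boundary

variable {Γ : Type u} [Group Γ] {V : Type v} [MulAction Γ V] {T : SimpleGraph V}

variable {O : Set (V × V)} {ι : Type} {Pv : V → AddSubgroup (F Γ ι)}

variable {Pe : V × V → AddSubgroup (F Γ ι)} {n m : ℕ} {c : Fin n → V} {b : Fin m → V × V}

/-- The positions of the vectors are positively oriented edges. -/
theorem pr_eq_zero_of_not_edge (hT : TreeAct Γ V T) (hO : Ori Γ T O)
    (hb : ∀ k, b k ∈ O ∧ T.Adj (b k).1 (b k).2) (e : V × V) (he : ¬ (e ∈ O ∧ T.Adj e.1 e.2))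
    (z : F Γ (ι × Fin m)) : pr (cp ι b) {e} z = 0 := by
  classical
  refine F_ext fun a γ => ?_
  rw [pr_coeff, if_neg]
  · rfl
  · intro h
    apply he
    have h1 : γ • b a.2 = e := h
    rw [← h1]
    exact ⟨hO.inv γ _ (hb a.2).1, hT.adj γ _ _ (hb a.2).2⟩

/-- The boundary of the part at the edge `e`. -/
noncomputable def bdE (hT : TreeAct Γ V T) (hO : Ori Γ T O) (h : MV T O Pv Pe c b) (e : V × V) :
    sec b Pe h.eqe →+ sec c Pv h.eqv where
  toFun z := ⟨unf c e.2 (eps Γ ι m (pr (cp ι b) {e} (z : F Γ (ι × Fin m)))) -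
      unf c e.1 (eps Γ ι m (pr (cp ι b) {e} (z : F Γ (ι × Fin m)))), by
    by_cases he : e ∈ O ∧ T.Adj e.1 e.2
    · have h1 : eps Γ ι m (pr (cp ι b) {e} (z : F Γ (ι × Fin m))) ∈ Pe e := z.2 e
      have h2 := h.sub e he.1 he.2 h1
      exact (sec c Pv h.eqv).sub_mem (unf_mem_sec h.injc h.covv h2.2)
        (unf_mem_sec h.injc h.covv h2.1)
    · rw [pr_eq_zero_of_not_edge hT hO h.bO e he, map_zero, map_zero, map_zero, sub_zero]
      exact Submodule.zero_mem _⟩
  map_zero' := by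
    apply Subtype.ext
    change unf c e.2 (eps Γ ι m (pr (cp ι b) {e} 0)) - unf c e.1 (eps Γ ι m (pr (cp ι b) {e} 0)) = 0
    rw [map_zero, map_zero, map_zero, map_zero, sub_zero]
  map_add' y z := by
    apply Subtype.ext
    change unf c e.2 (eps Γ ι m (pr (cp ι b) {e} ((y : F Γ (ι × Fin m)) + z))) -
      unf c e.1 (eps Γ ι m (pr (cp ι b) {e} ((y : F Γ (ι × Fin m)) + z))) =
      (unf c e.2 (eps Γ ι m (pr (cp ι b) {e} (y : F Γ (ι × Fin m)))) -
        unf c e.1 (eps Γ ι m (pr (cp ι b) {e} (y : F Γ (ι × Fin m))))) +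
      (unf c e.2 (eps Γ ι m (pr (cp ι b) {e} (z : F Γ (ι × Fin m)))) -
        unf c e.1 (eps Γ ι m (pr (cp ι b) {e} (z : F Γ (ι × Fin m)))))
    rw [map_add, map_add, map_add, map_add]
    abel

theorem bdE_coe (hT : TreeAct Γ V T) (hO : Ori Γ T O) (h : MV T O Pv Pe c b) {e : V × V}
    {z : sec b Pe h.eqe} (hz : In (cp ι b) {e} (z : F Γ (ι × Fin m))) :
    ((bdE hT hO h e z : sec c Pv h.eqv) : F Γ (ι × Fin n)) =
      unf c e.2 (eps Γ ι m (z : F Γ (ι × Fin m))) - unf c e.1 (eps Γ ι m (z : F Γ (ι × Fin m))) := by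
  change unf c e.2 (eps Γ ι m (pr (cp ι b) {e} (z : F Γ (ι × Fin m)))) -
      unf c e.1 (eps Γ ι m (pr (cp ι b) {e} (z : F Γ (ι × Fin m)))) = _
  rw [hz.eq]

/-- The boundary. -/
theorem exists_bd [Finite ι] (hT : TreeAct Γ V T) (hO : Ori Γ T O) (h : MV T O Pv Pe c b) :
    ∃ d : sec b Pe h.eqe →ₗ[ZG Γ] sec c Pv h.eqv,
      ∀ (e : V × V) (z : sec b Pe h.eqe), In (cp ι b) {e} (z : F Γ (ι × Fin m)) →
        ((d z : sec c Pv h.eqv) : F Γ (ι × Fin n)) =
          unf c e.2 (eps Γ ι m (z : F Γ (ι × Fin m))) -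
            unf c e.1 (eps Γ ι m (z : F Γ (ι × Fin m))) := by
  obtain ⟨d, hd⟩ := exists_lin_sub (cp ι b) (sec b Pe h.eqe) (fun P y hy => pr_mem_sec P hy)
    (fun e => bdE hT hO h e) (fun γ e z hz => by
      apply Subtype.ext
      have h1 : In (cp ι b) {γ • e} (((MonoidAlgebra.single γ (1 : ℤ) : ZG Γ) • z :
          sec b Pe h.eqe) : F Γ (ι × Fin m)) := hz.smul_singleton γ 1
      rw [bdE_coe hT hO h h1]
      change unf c (γ • e.2) (eps Γ ι m ((MonoidAlgebra.single γ (1 : ℤ) : ZG Γ) •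
          (z : F Γ (ι × Fin m)))) - unf c (γ • e.1) (eps Γ ι m
            ((MonoidAlgebra.single γ (1 : ℤ) : ZG Γ) • (z : F Γ (ι × Fin m)))) =
        (MonoidAlgebra.single γ (1 : ℤ) : ZG Γ) • ((bdE hT hO h e z : sec c Pv h.eqv) :
          F Γ (ι × Fin n))
      rw [bdE_coe hT hO h hz, map_smul, unf_smul, unf_smul, smul_sub])
  refine ⟨d, fun e z hz => ?_⟩
  rw [hd e z hz, bdE_coe hT hO h hz]

end Boundary

/-- In a tree: if `w` has the maximal distance to `o`, all other points are on the side of the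
parent of `w`. -/
theorem mem_side_of_max {V : Type v} {T : SimpleGraph V} (hT : T.IsTree) {o w w' x : V}
    (hadj : T.Adj w w') (hw : T.dist o w = T.dist o w' + 1) (hx : T.dist o x ≤ T.dist o w)
    (hne : x ≠ w) : x ∈ side T w w' := by
  rw [mem_side_iff]
  rcases hT.dist_eq_dist_add_one_of_adj x hadj with h1 | h1
  · omega
  · exfalso
    have h2 : T.dist w' w = 1 := T.dist_eq_one_iff_adj.2 hadj.symm
    have h3 : T.dist w' x = T.dist w' w + T.dist w x := by
      rw [T.dist_comm (u := w') (v := x), h1, h2, T.dist_comm (u := w) (v := x)]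
      omega
    have h4 := tree_dist_add' hT (x := o) (y := w') (z := w) (w := x) (by rw [hw, h2]) h3
      hadj.ne'
    have h5 : 0 < T.dist w x := hT.connected.pos_dist_of_ne (Ne.symm hne)
    omega

section Exact

variable {Γ : Type u} [Group Γ] {V : Type v} [MulAction Γ V] {T : SimpleGraph V}

variable {O : Set (V × V)} {ι : Type} [Finite ι] {Pv : V → AddSubgroup (F Γ ι)}

variable {Pe : V × V → AddSubgroup (F Γ ι)} {n m : ℕ} {c : Fin n → V} {b : Fin m → V × V}

omit [Finite ι] in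
/-- One step: a section whose part at the farthest vertex `w` can be moved to the parent. -/
theorem exists_move (hO : Ori Γ T O) (h : MV T O Pv Pe c b)
    (d : sec b Pe h.eqe →ₗ[ZG Γ] sec c Pv h.eqv)
    (hd : ∀ (e : V × V) (z : sec b Pe h.eqe), In (cp ι b) {e} (z : F Γ (ι × Fin m)) →
        ((d z : sec c Pv h.eqv) : F Γ (ι × Fin n)) =
          unf c e.2 (eps Γ ι m (z : F Γ (ι × Fin m))) -
            unf c e.1 (eps Γ ι m (z : F Γ (ι × Fin m)))) {w w' : V} (hadj : T.Adj w w')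
    {f : F Γ ι} (h1 : f ∈ Pv w) (h2 : f ∈ ⨆ x ∈ side T w w', Pv x) :
    ∃ z : sec b Pe h.eqe, ((d z : sec c Pv h.eqv) : F Γ (ι × Fin n)) = unf c w f - unf c w' f := by
  have key : ∀ e : V × V, e ∈ O → T.Adj e.1 e.2 → f ∈ Pe e → ∃ z : sec b Pe h.eqe,
      ((d z : sec c Pv h.eqv) : F Γ (ι × Fin n)) = unf c e.2 f - unf c e.1 f := by
    intro e _ _ hf
    refine ⟨⟨unf b e f, unf_mem_sec h.injb h.cove hf⟩, ?_⟩
    rw [hd e _ (unf_in b e f)]
    change unf c e.2 (eps Γ ι m (unf b e f)) - unf c e.1 (eps Γ ι m (unf b e f)) = _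
    rw [eps_unf h.injb (h.cove e f hf)]
  by_cases hO1 : (w, w') ∈ O
  · obtain ⟨z, hz⟩ := key (w, w') hO1 hadj ((h.cut (w, w') hO1 hadj f).1 h1 h2)
    refine ⟨-z, ?_⟩
    rw [map_neg]
    change -((d z : sec c Pv h.eqv) : F Γ (ι × Fin n)) = _
    rw [hz, neg_sub]
  · have hO2 : (w', w) ∈ O := (hO.ori w' w hadj.symm).2 hO1
    exact key (w', w) hO2 hadj.symm ((h.cut (w', w) hO2 hadj.symm f).2 h1 h2)

omit [Finite ι] in
theorem ker_bd (hT : TreeAct Γ V T) (hO : Ori Γ T O) (h : MV T O Pv Pe c b)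
    (d : sec b Pe h.eqe →ₗ[ZG Γ] sec c Pv h.eqv)
    (hd : ∀ (e : V × V) (z : sec b Pe h.eqe), In (cp ι b) {e} (z : F Γ (ι × Fin m)) →
        ((d z : sec c Pv h.eqv) : F Γ (ι × Fin n)) =
          unf c e.2 (eps Γ ι m (z : F Γ (ι × Fin m))) -
            unf c e.1 (eps Γ ι m (z : F Γ (ι × Fin m)))) (o : V) :
    ∀ (N : ℕ) (s : Finset V) (y : sec c Pv h.eqv), ∑ x ∈ s, T.dist o x = N →
      In (cp ι c) (s : Set V) (y : F Γ (ι × Fin n)) → eps Γ ι n y = 0 → ∃ z, d z = y := by
  classical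
  intro N
  induction N using Nat.strong_induction_on with
  | _ N ih =>
    intro s y hN hs hy
    by_cases hne : ∃ x ∈ s, T.dist o x ≠ 0
    · obtain ⟨x0, hx0, hx0'⟩ := hne
      obtain ⟨w, hw, hmax⟩ := Finset.exists_max_image s (fun x => T.dist o x) ⟨x0, hx0⟩
      have hw0 : T.dist o w ≠ 0 := fun h0 => hx0' (by have := hmax x0 hx0; omega)
      obtain ⟨D, hD⟩ : ∃ D, T.dist o w = D + 1 := ⟨T.dist o w - 1, by omega⟩
      obtain ⟨w', hadj, hw'⟩ := tree_exists_pred hT.tree hD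
      have hf1 : eps Γ ι n (pr (cp ι c) {w} (y : F Γ (ι × Fin n))) ∈ Pv w := y.2 w
      have hsum : ∑ x ∈ s, eps Γ ι n (pr (cp ι c) {x} (y : F Γ (ι × Fin n))) = 0 := by
        rw [← map_sum, sum_pr, hs.eq, hy]
      have hf2 : eps Γ ι n (pr (cp ι c) {w} (y : F Γ (ι × Fin n))) ∈
          ⨆ x ∈ side T w w', Pv x := by
        rw [← Finset.add_sum_erase _ _ hw] at hsum
        rw [eq_neg_of_add_eq_zero_left hsum]
        refine AddSubgroup.neg_mem _ (AddSubgroup.sum_mem _ fun x hx => ?_)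
        have hx1 : x ∈ side T w w' := mem_side_of_max hT.tree hadj.symm (by rw [hD, hw'])
          (hmax x (Finset.mem_of_mem_erase hx)) (Finset.ne_of_mem_erase hx)
        exact (le_iSup₂_of_le (f := fun x (_ : x ∈ side T w w') => Pv x) x hx1 le_rfl) (y.2 x)
      obtain ⟨z, hz⟩ := exists_move hO h d hd hadj.symm hf1 hf2
      obtain ⟨z', hz'⟩ := ih (∑ x ∈ insert w' (s.erase w), T.dist o x) (by
        rw [← hN, ← Finset.add_sum_erase _ _ hw]
        by_cases h1 : w' ∈ s.erase w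
        · rw [Finset.insert_eq_of_mem h1]
          omega
        · rw [Finset.sum_insert h1]
          omega) (insert w' (s.erase w)) (y - d z) rfl (by
        refine in_of_forall fun x hx => ?_
        have hx1 : x ≠ w' := fun h1 => hx (by
          rw [h1]
          exact Finset.mem_coe.2 (Finset.mem_insert_self _ _))
        change pr (cp ι c) {x} ((y : F Γ (ι × Fin n)) -
          ((d z : sec c Pv h.eqv) : F Γ (ι × Fin n))) = 0
        rw [hz, map_sub, map_sub, (unf_in c w' _).pr_eq_zero (Set.disjoint_singleton.2 hx1), sub_zero]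
        by_cases hxw : x = w
        · rw [hxw, (unf_in c w _).eq, unf_eps h.injc (in_pr _ _ _), sub_self]
        · have hxs : x ∉ (s : Set V) := fun h1 => hx (Finset.mem_coe.2 (Finset.mem_insert_of_mem
            (Finset.mem_erase.2 ⟨hxw, Finset.mem_coe.1 h1⟩)))
          rw [(unf_in c w _).pr_eq_zero (Set.disjoint_singleton.2 hxw), sub_zero,
            hs.pr_eq_zero (Set.disjoint_singleton_left.2 hxs)]) (by
        change eps Γ ι n ((y : F Γ (ι × Fin n)) - ((d z : sec c Pv h.eqv) : F Γ (ι × Fin n))) = 0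
        have hc1 := h.covv w _ hf1
        have hz2 : eps Γ ι n ((d z : sec c Pv h.eqv) : F Γ (ι × Fin n)) = 0 := by
          have hw1 : eps Γ ι n (pr (cp ι c) {w} (y : F Γ (ι × Fin n))) ∈ Pv w' := by
            by_cases hO1 : (w, w') ∈ O
            · exact (h.sub _ hO1 hadj.symm ((h.cut (w, w') hO1 hadj.symm _).1 hf1 hf2)).2
            · have hO2 : (w', w) ∈ O := (hO.ori w' w hadj).2 hO1
              exact (h.sub _ hO2 hadj ((h.cut (w', w) hO2 hadj _).2 hf1 hf2)).1
          rw [hz, map_sub, eps_unf h.injc hc1, eps_unf h.injc (h.covv w' _ hw1), sub_self]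
        rw [map_sub, hy, hz2, sub_zero])
      refine ⟨z' + z, ?_⟩
      rw [map_add, hz', sub_add_cancel]
    · push Not at hne
      refine ⟨0, ?_⟩
      rw [map_zero]
      apply Subtype.ext
      have h1 : In (cp ι c) {o} (y : F Γ (ι × Fin n)) := hs.mono fun x hx => by
        have h2 := hne x (Finset.mem_coe.1 hx)
        rw [hT.tree.connected.dist_eq_zero_iff] at h2
        exact h2.symm
      exact (eq_of_eps h.injc h1 (In.zero _ _) (by rw [hy, map_zero])).symm

theorem inj_bd (hT : TreeAct Γ V T) (hO : Ori Γ T O) (h : MV T O Pv Pe c b)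
    (d : sec b Pe h.eqe →ₗ[ZG Γ] sec c Pv h.eqv)
    (hd : ∀ (e : V × V) (z : sec b Pe h.eqe), In (cp ι b) {e} (z : F Γ (ι × Fin m)) →
        ((d z : sec c Pv h.eqv) : F Γ (ι × Fin n)) =
          unf c e.2 (eps Γ ι m (z : F Γ (ι × Fin m))) -
            unf c e.1 (eps Γ ι m (z : F Γ (ι × Fin m)))) (o : V)
    (z : sec b Pe h.eqe) (hz : d z = 0) : z = 0 := by
  classical
  by_contra hne
  obtain ⟨s, hs⟩ := exists_finset (cp ι b) (z : F Γ (ι × Fin m))
  have hsum := sec_sum z s hs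
  obtain ⟨e0, he0, he0'⟩ : ∃ e ∈ s, (prS e z : sec b Pe h.eqe) ≠ 0 := by
    by_contra hcon
    push Not at hcon
    exact hne (hsum.trans (Finset.sum_eq_zero hcon))
  let far : V × V → ℕ := fun e => max (T.dist o e.1) (T.dist o e.2)
  obtain ⟨e, he, hmax⟩ := Finset.exists_max_image (s.filter fun e => (prS e z : sec b Pe h.eqe) ≠ 0)
    far ⟨e0, Finset.mem_filter.2 ⟨he0, he0'⟩⟩
  have hedge : ∀ e', (prS e' z : sec b Pe h.eqe) ≠ 0 → e' ∈ O ∧ T.Adj e'.1 e'.2 := by
    intro e' he'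
    by_contra hcon
    exact he' (Subtype.ext (pr_eq_zero_of_not_edge hT hO h.bO e' hcon _))
  have he1 := (Finset.mem_filter.1 he).2
  obtain ⟨heO, headj⟩ := hedge e he1
  -- the far end
  obtain ⟨w, w', hww, hadj, hdist, hfar⟩ : ∃ w w' : V, ((e = (w, w')) ∨ (e = (w', w))) ∧
      T.Adj w w' ∧ T.dist o w = T.dist o w' + 1 ∧ far e = T.dist o w := by
    rcases hT.tree.dist_eq_dist_add_one_of_adj o headj with h1 | h1
    · exact ⟨e.1, e.2, Or.inl rfl, headj, h1, max_eq_left (by omega)⟩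
    · exact ⟨e.2, e.1, Or.inr rfl, headj.symm, h1, max_eq_right (by omega)⟩
  have huniq : ∀ x, T.Adj w x → T.dist o x ≤ T.dist o w → x = w' := by
    intro x hx hle
    have h1 : T.dist x w = 1 := T.dist_eq_one_iff_adj.2 hx.symm
    have h2 : T.dist w' w = 1 := T.dist_eq_one_iff_adj.2 hadj.symm
    rcases hT.tree.dist_eq_dist_add_one_of_adj o hx with h3 | h3
    · exact tree_eq_of_dist hT.tree (x := o) (z := w) (by omega) (by omega) (by omega)
    · omega
  have hother : ∀ e' ∈ s.filter (fun e => (prS e z : sec b Pe h.eqe) ≠ 0), e' ≠ e →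
      e'.1 ≠ w ∧ e'.2 ≠ w := by
    intro e' he' hne'
    obtain ⟨hO', hadj'⟩ := hedge e' (Finset.mem_filter.1 he').2
    have hm : far e' ≤ T.dist o w := hfar ▸ hmax e' he'
    have hm1 : T.dist o e'.1 ≤ T.dist o w := (le_max_left _ _).trans hm
    have hm2 : T.dist o e'.2 ≤ T.dist o w := (le_max_right _ _).trans hm
    constructor
    · intro h1
      rw [h1] at hadj'
      have h2 := huniq _ hadj' hm2
      have h3 : e' = (w, w') := Prod.ext h1 h2
      rcases hww with h4 | h4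
      · exact hne' (h3.trans h4.symm)
      · rw [h3] at hO'
        rw [h4] at heO
        exact (hO.ori w w' hadj).1 hO' heO
    · intro h1
      rw [h1] at hadj'
      have h2 := huniq _ hadj'.symm hm1
      have h3 : e' = (w', w) := Prod.ext h2 h1
      rcases hww with h4 | h4
      · rw [h3] at hO'
        rw [h4] at heO
        exact (hO.ori w w' hadj).1 heO hO'
      · exact hne' (h3.trans h4.symm)
  have hpart : ∀ e' ∈ s, e' ≠ e →
      pr (cp ι c) {w} ((d (prS e' z) : sec c Pv h.eqv) : F Γ (ι × Fin n)) = 0 := by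
    intro e' he' hne'
    by_cases h0 : (prS e' z : sec b Pe h.eqe) = 0
    · rw [h0, map_zero]
      exact map_zero _
    · obtain ⟨h1, h2⟩ := hother e' (Finset.mem_filter.2 ⟨he', h0⟩) hne'
      rw [hd e' _ (in_pr _ _ _), map_sub,
        (unf_in c e'.2 _).pr_eq_zero (Set.disjoint_singleton.2 (Ne.symm h2)),
        (unf_in c e'.1 _).pr_eq_zero (Set.disjoint_singleton.2 (Ne.symm h1)), sub_zero]
  have hw0 : pr (cp ι c) {w} ((d (prS e z) : sec c Pv h.eqv) : F Γ (ι × Fin n)) = 0 := by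
    have h1 : ((d z : sec c Pv h.eqv) : F Γ (ι × Fin n)) = 0 := by rw [hz]; rfl
    rw [hsum, map_sum, AddSubmonoidClass.coe_finsetSum] at h1
    have h2 := congrArg (pr (cp ι c) {w}) h1
    rw [map_sum, map_zero, Finset.sum_eq_single e (fun e' he' hne' => hpart e' he' hne')
      (fun h3 => absurd (Finset.mem_filter.1 he).1 h3)] at h2
    exact h2
  have hmem : eps Γ ι m ((prS e z : sec b Pe h.eqe) : F Γ (ι × Fin m)) ∈ Pe e := z.2 e
  have hf0 : eps Γ ι m ((prS e z : sec b Pe h.eqe) : F Γ (ι × Fin m)) = 0 := by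
    have hsub := h.sub e heO headj hmem
    have hnw : w ≠ w' := hadj.ne
    rw [hd e _ (in_pr _ _ _)] at hw0
    rcases hww with h4 | h4
    · rw [h4] at hw0 hsub ⊢
      rw [map_sub, (unf_in c w' _).pr_eq_zero (Set.disjoint_singleton.2 hnw), zero_sub,
        (unf_in c w _).eq, neg_eq_zero] at hw0
      rw [← eps_unf h.injc (h.covv w _ hsub.1), hw0, map_zero]
    · rw [h4] at hw0 hsub ⊢
      rw [map_sub, (unf_in c w' _).pr_eq_zero (Set.disjoint_singleton.2 hnw), sub_zero,
        (unf_in c w _).eq] at hw0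
      rw [← eps_unf h.injc (h.covv w _ hsub.2), hw0, map_zero]
  apply he1
  apply Subtype.ext
  have h0 : eps Γ ι m (0 : F Γ (ι × Fin m)) = 0 := map_zero _
  exact eq_of_eps h.injb (in_pr _ _ _) (In.zero _ {e}) (hf0.trans h0.symm)

end Exact

/-- Module MV. -/
theorem stMV : StMV.{u, v} := by
  classical
  intro Γ _ V _ T hT O hO ι _ Pv Pe n m c b h
  obtain ⟨d, hd⟩ := exists_bd hT hO h
  obtain ⟨o⟩ := hT.tree.connected.nonempty
  refine ⟨d, ?_, ?_, ?_, ?_⟩
  · rw [injective_iff_map_eq_zero]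
    exact inj_bd hT hO h d hd o
  · apply le_antisymm
    · rintro _ ⟨z, rfl⟩
      rw [LinearMap.mem_ker]
      have h1 : (eps Γ ι n ∘ₗ (sec c Pv h.eqv).subtype ∘ₗ d).toAddMonoidHom = 0 := by
        refine sec_ext _ _ fun e z hz => ?_
        change eps Γ ι n ((d z : sec c Pv h.eqv) : F Γ (ι × Fin n)) = 0
        by_cases he : e ∈ O ∧ T.Adj e.1 e.2
        · have h2 : eps Γ ι m (z : F Γ (ι × Fin m)) ∈ Pe e := by
            have h3 := z.2 e
            rwa [hz.eq] at h3
          have h4 := h.sub e he.1 he.2 h2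
          rw [hd e z hz, map_sub, eps_unf h.injc (h.covv _ _ h4.2),
            eps_unf h.injc (h.covv _ _ h4.1), sub_self]
        · have h5 : (z : F Γ (ι × Fin m)) = 0 := by
            rw [← hz.eq]
            exact pr_eq_zero_of_not_edge hT hO h.bO e he _
          have h6 : z = 0 := Subtype.ext h5
          rw [h6, map_zero]
          exact map_zero _
      exact DFunLike.congr_fun h1 z
    · intro y hy
      obtain ⟨s, hs⟩ := exists_finset (cp ι c) (y : F Γ (ι × Fin n))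
      obtain ⟨z, hz⟩ := ker_bd hT hO h d hd o _ s y rfl hs (LinearMap.mem_ker.1 hy)
      exact ⟨z, hz⟩
  · intro f hf
    induction hf using AddSubgroup.iSup_induction' with
    | hp v f hf =>
      exact ⟨⟨unf c v f, unf_mem_sec h.injc h.covv hf⟩, eps_unf h.injc (h.covv v f hf)⟩
    | h1 => exact Submodule.zero_mem _
    | hadd a b _ _ h1 h2 => exact Submodule.add_mem _ h1 h2
  · intro e z hz
    by_cases he : e ∈ O ∧ T.Adj e.1 e.2
    · have h2 : eps Γ ι m (z : F Γ (ι × Fin m)) ∈ Pe e := by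
        have h3 := z.2 e
        rwa [hz.eq] at h3
      have h4 := h.sub e he.1 he.2 h2
      exact ⟨unf c e.1 (eps Γ ι m z), unf c e.2 (eps Γ ι m z), unf_in _ _ _, unf_in _ _ _,
        eps_unf h.injc (h.covv _ _ h4.1), eps_unf h.injc (h.covv _ _ h4.2), hd e z hz⟩
    · have h5 : (z : F Γ (ι × Fin m)) = 0 := by
        rw [← hz.eq]
        exact pr_eq_zero_of_not_edge hT hO h.bO e he _
      have h6 : z = 0 := Subtype.ext h5
      refine ⟨0, 0, In.zero _ _, In.zero _ _, ?_, ?_, ?_⟩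
      · rw [h5, map_zero, map_zero]
      · rw [h5, map_zero, map_zero]
      · rw [h6, map_zero, sub_zero]
        rfl

end Pool.Agent.Lib.MP_551055_al.PT
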