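import Mathlib
import Pool.Agent.Lib.MP_551055_al.Trim.LS.Pos
import Pool.Agent.Lib.MP_551055_al.Trim.LS.Stmts
import Pool.Agent.Lib.MP_551055_al.Trim.LS.TreeB
import Pool.Agent.Lib.MP_551055_al.Trim.PT.Stmts

/-!
# Products of trees: saturated families

Module SatMV.
-/

set_option autoImplicit false

namespace Pool.Agent.Lib.MP_551055_al
end Pool.Agent.Lib.MP_551055_al

namespace Pool.Agent.Lib.MP_551055_al.LS
end Pool.Agent.Lib.MP_551055_al.LS

namespace Pool.Agent.Lib.MP_551055_al.PT.SatAux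
end Pool.Agent.Lib.MP_551055_al.PT.SatAux

namespace Pool.Agent.Lib.MP_551055_al.PT

open Pool.Agent.Lib.MP_551055_al

open Pool.Agent.Lib.MP_551055_al.LS

universe u v

namespace SatAux

section

variable {Γ : Type u} [Group Γ] {V : Type v} [MulAction Γ V] {T : SimpleGraph V} {ι : Type}

/-- Edge convex sets are invariant. -/
theorem ec_inv (hT : TreeAct Γ V T) {A : Set V} (hA : EC T A) {a b w : V} (hab : T.Adj a b)
    (hw : w ∈ side T a b) (γ : Γ) (ha : γ⁻¹ • a ∈ A) (hwA : γ⁻¹ • w ∈ A) :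
    γ⁻¹ • a ∈ A ∧ γ⁻¹ • b ∈ A := by
  refine hA (γ⁻¹ • a) (γ⁻¹ • b) (hT.adj γ⁻¹ a b hab) ⟨γ⁻¹ • w, hwA, ?_⟩ ⟨γ⁻¹ • a, ha, ?_⟩
  · change T.dist (γ⁻¹ • w) (γ⁻¹ • b) < T.dist (γ⁻¹ • w) (γ⁻¹ • a)
    rw [dist_smul_smul hT, dist_smul_smul hT]
    exact hw
  · intro h
    have h1 : T.dist (γ⁻¹ • a) (γ⁻¹ • b) < T.dist (γ⁻¹ • a) (γ⁻¹ • a) := h
    rw [T.dist_self] at h1
    exact absurd h1 (Nat.not_lt_zero _)

/-- The support of an element of a supremum of saturated groups. -/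
theorem supp_iSup (K : Submodule (ZG Γ) (F Γ ι)) (A : Set V) (H : Set V) {f : F Γ ι}
    (hf : f ∈ (⨆ w ∈ H, sat K A w)) (j : ι) (γ : Γ) (hne : (f j).coeff γ ≠ 0) :
    ∃ w ∈ H, γ⁻¹ • w ∈ A := by
  classical
  let Q : AddSubgroup (F Γ ι) :=
    { carrier := {f | ∀ (j : ι) (γ : Γ), (f j).coeff γ ≠ 0 → ∃ w ∈ H, γ⁻¹ • w ∈ A}
      zero_mem' := fun _ _ h => absurd rfl h
      add_mem' := by
        intro a b ha hb j γ h
        by_cases h1 : (a j).coeff γ = 0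
        · refine hb j γ fun h2 => h ?_
          rw [Pi.add_apply, MonoidAlgebra.coeff_add, Finsupp.add_apply, h1, h2, add_zero]
        · exact ha j γ h1
      neg_mem' := by
        intro a ha j γ h
        refine ha j γ fun h2 => h ?_
        rw [Pi.neg_apply, MonoidAlgebra.coeff_neg, Finsupp.neg_apply, h2, neg_zero] }
  have h1 : (⨆ w ∈ H, sat K A w) ≤ Q := by
    refine iSup_le fun w => iSup_le fun hw => ?_
    intro f hf j γ hne
    exact ⟨w, hw, hf.2 j γ hne⟩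
  exact h1 hf j γ hne

/-- The cut property. -/
theorem cut_aux (hT : TreeAct Γ V T) {A : Set V} (hA : EC T A)
    (K : Submodule (ZG Γ) (F Γ ι)) {a b : V} (hab : T.Adj a b) {f : F Γ ι}
    (h1 : f ∈ sat K A a) (h2 : f ∈ (⨆ w ∈ side T a b, sat K A w)) (j : ι) (γ : Γ)
    (hne : (f j).coeff γ ≠ 0) : γ⁻¹ • a ∈ A ∧ γ⁻¹ • b ∈ A := by
  obtain ⟨w, hw, hwA⟩ := supp_iSup K A _ h2 j γ hne
  exact ec_inv hT hA hab hw γ (h1.2 j γ hne) hwA

/-- Every element of a finitely generated submodule is a sum of saturated elements. -/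
theorem mem_iSup (K : Submodule (ZG Γ) (F Γ ι)) (A : Set V) (S : Set (F Γ ι))
    (hS : Submodule.span (ZG Γ) S = K) (o : V)
    (hSA : ∀ k ∈ S, ∀ (j : ι) (γ : Γ), (k j).coeff γ ≠ 0 → γ⁻¹ • o ∈ A) {f : F Γ ι}
    (hf : f ∈ K) : f ∈ ⨆ v, sat K A v := by
  have hinv : ∀ (γ : Γ) (f : F Γ ι), f ∈ (⨆ v, sat K A v) →
      (MonoidAlgebra.single γ (1 : ℤ) : ZG Γ) • f ∈ ⨆ v, sat K A v := by
    intro γ f hf
    induction hf using AddSubgroup.iSup_induction' with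
    | hp x f hf => exact (le_iSup (fun v => sat K A v) (γ • x)) (sat_eqv K A γ x f hf)
    | h1 =>
      rw [smul_zero]
      exact AddSubgroup.zero_mem _
    | hadd a b _ _ h1 h2 =>
      rw [smul_add]
      exact AddSubgroup.add_mem _ h1 h2
  rw [← hS] at hf
  induction hf using Submodule.span_induction with
  | mem k hk =>
    have h1 : k ∈ K := by
      rw [← hS]
      exact Submodule.subset_span hk
    exact (le_iSup (fun v => sat K A v) o) ⟨h1, hSA k hk⟩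
  | zero => exact AddSubgroup.zero_mem _
  | add a b _ _ h1 h2 => exact AddSubgroup.add_mem _ h1 h2
  | smul s f _ h1 =>
    refine smul_induction (Q := fun f => f ∈ ⨆ v, sat K A v) (AddSubgroup.zero_mem _)
      (fun a b => AddSubgroup.add_mem _) (fun γ a => ?_) s
    rw [single_smul_int]
    exact AddSubgroup.zsmul_mem _ (hinv γ f h1) a

end

end SatAux

open SatAux

/-- Module SatMV. -/
theorem stSatMV (hH : StHull.{v}) : StSatMV.{u, v} := by
  classical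
  intro Γ _ V _ T hT O hO ι _ K hK
  obtain ⟨S, hS⟩ := hK
  have hne : Nonempty V := hT.tree.connected.nonempty
  obtain ⟨o⟩ := hne
  have hB : (⋃ k ∈ S, ⋃ j : ι, ((fun γ : Γ => γ⁻¹ • o) '' {γ : Γ | (k j).coeff γ ≠ 0})).Finite := by
    refine Set.Finite.biUnion S.finite_toSet fun k _ => Set.finite_iUnion fun j => ?_
    refine Set.Finite.image _ ?_
    exact (k j).coeff.hasFiniteSupport
  obtain ⟨A, hAfin, hBA, hEC⟩ := hH V T hT.tree _ hB
  have hSE : (SE T O A).Finite := by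
    refine (hAfin.prod hAfin).subset ?_
    rintro ⟨x, y⟩ h
    exact ⟨h.2.2.1, h.2.2.2⟩
  obtain ⟨n, c, hc, hcr⟩ := hAfin.fin_param
  obtain ⟨m, b, hb, hbr⟩ := hSE.fin_param
  refine ⟨A, n, m, c, b, hAfin, ?_, ?_⟩
  · refine ⟨sat_eqv K A, sat_eqv K _, ?_, ?_, hc, hb, ?_, ?_, ?_⟩
    · intro x f hf j γ hne
      rw [hcr]
      exact hf.2 j γ hne
    · intro x f hf j γ hne
      rw [hbr]
      exact hf.2 j γ hne
    · intro k
      have h1 : b k ∈ SE T O A := by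
        rw [← hbr]
        exact ⟨k, rfl⟩
      exact ⟨h1.1, h1.2.1⟩
    · intro e _ _ f hf
      refine ⟨⟨hf.1, fun j γ hne => ?_⟩, ⟨hf.1, fun j γ hne => ?_⟩⟩
      · exact (hf.2 j γ hne).2.2.1
      · exact (hf.2 j γ hne).2.2.2
    · intro e heO hadj f
      refine ⟨fun h1 h2 => ⟨h1.1, fun j γ hne => ?_⟩, fun h1 h2 => ⟨h1.1, fun j γ hne => ?_⟩⟩
      · have h3 := cut_aux hT hEC K hadj h1 h2 j γ hne
        exact ⟨hO.inv γ⁻¹ e heO, hT.adj γ⁻¹ _ _ hadj, h3.1, h3.2⟩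
      · have h3 := cut_aux hT hEC K hadj.symm h1 h2 j γ hne
        exact ⟨hO.inv γ⁻¹ e heO, hT.adj γ⁻¹ _ _ hadj, h3.2, h3.1⟩
  · intro f hf
    refine mem_iSup K A (S : Set (F Γ ι)) hS o (fun k hk j γ hne => hBA ?_) hf
    refine Set.mem_biUnion hk (Set.mem_iUnion.2 ⟨j, ⟨γ, hne, rfl⟩⟩)

end Pool.Agent.Lib.MP_551055_al.PT
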