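import Mathlib
import Pool.Agent.Lib.MP_551055_al.Trim.LS.BassClass
import Pool.Agent.Lib.MP_551055_al.Trim.LS.BassMono
import Pool.Agent.Lib.MP_551055_al.Trim.LS.BassProj
import Pool.Agent.Lib.MP_551055_al.Trim.LS.BassVert
import Pool.Agent.Lib.MP_551055_al.Trim.LS.Cut
import Pool.Agent.Lib.MP_551055_al.Trim.LS.FinalR
import Pool.Agent.Lib.MP_551055_al.Trim.LS.Graded
import Pool.Agent.Lib.MP_551055_al.Trim.LS.Ind
import Pool.Agent.Lib.MP_551055_al.Trim.LS.Init
import Pool.Agent.Lib.MP_551055_al.Trim.LS.K1a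
import Pool.Agent.Lib.MP_551055_al.Trim.LS.K1c
import Pool.Agent.Lib.MP_551055_al.Trim.LS.KI
import Pool.Agent.Lib.MP_551055_al.Trim.LS.Main
import Pool.Agent.Lib.MP_551055_al.Trim.LS.PExt
import Pool.Agent.Lib.MP_551055_al.Trim.LS.PSes
import Pool.Agent.Lib.MP_551055_al.Trim.LS.Ray
import Pool.Agent.Lib.MP_551055_al.Trim.LS.RegSub
import Pool.Agent.Lib.MP_551055_al.Trim.LS.Step
import Pool.Agent.Lib.MP_551055_al.Trim.LS.Stmts2
import Pool.Agent.Lib.MP_551055_al.Trim.LS.Theta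
import Pool.Agent.Lib.MP_551055_al.Trim.LS.TreeA
import Pool.Agent.Lib.MP_551055_al.Trim.LS.TreeB
import Pool.Agent.Lib.MP_551055_al.Trim.LS.TreeC
import Pool.Agent.Lib.MP_551055_al.Trim.LS.VecFree
import Pool.Agent.Lib.MP_551055_al.Trim.PT.Hull
import Pool.Agent.Lib.MP_551055_al.Trim.PT.MV
import Pool.Agent.Lib.MP_551055_al.Trim.PT.SatMV
import Pool.Agent.Lib.MP_551055_al.Trim.PT.TreeCoh2

/-!
# Products of trees: the assembled theorems
-/

set_option autoImplicit false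

namespace Pool.Agent.Lib.MP_551055_al
end Pool.Agent.Lib.MP_551055_al

namespace Pool.Agent.Lib.MP_551055_al.LS
end Pool.Agent.Lib.MP_551055_al.LS

namespace Pool.Agent.Lib.MP_551055_al.PT

open Pool.Agent.Lib.MP_551055_al

open Pool.Agent.Lib.MP_551055_al.LS

universe u v

theorem ptTreeCoh2 : StTreeCoh2.{u, v} :=
  stTreeCoh2 stTreeC (stSatMV stHull) stMV stInd stHomFree stVecFree (stPSes stPExt)

theorem ptFinalR : StFinalR.{u, v} :=
  stFinalR (stMainK1R (stRay lsNil (stStepP stTreeB stSwap) stRegSub stTreeB stTreeC) stTreeC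
    (stKI stTreeB) (stTheta stTreeA (stCut stTreeA)) lsAdapt (stInit stConj stUnip))
    (stBassClass stBassProj) stBassMono (stBassVert stBassProj) stBassIdem stGraded

end Pool.Agent.Lib.MP_551055_al.PT
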